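import Pool.Agent.Helper93.TCU.Stmts
import Pool.Agent.Helper93.TCU.Bas

/-!
# Bounded differences of the number of surviving options of a vertex
-/

set_option autoImplicit false
set_option linter.unusedSectionVars false

namespace Pool.TCU

open Pool.TC Pool.TCM Pool.TCS Finset
open scoped Classical

section j1

variable {V κ : Type} [Fintype V] [Fintype κ] {S : CS V κ} {U : Finset V} {L : V → Finset κ}
  {M : V → Finset κ} {D l m K : ℕ} {x : ℝ} {q : V → κ → ℝ} {Lam : ℝ} {o : V → κ}

/-- the vertices whose status matters for `u` -/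
private noncomputable def J1_R (S : CS V κ) (U : Finset V) (L : V → Finset κ) (o : V → κ) (u : V) :
    Finset V := (L u).biUnion (fun a => KP S U o u a ∪ KR S U o u (S.r u a))

/-- `w0` influences the status of `w` -/
private def J1_rel (S : CS V κ) (U : Finset V) (o : V → κ) (w w0 : V) : Prop :=
  w ∈ U ∧ w0 ∈ U ∧ (w = w0 ∨ conf S o w w0)

private theorem J1_conf_symm {w w0 : V} (h : conf S o w w0) : conf S o w0 w := by
  obtain ⟨h1, h2⟩ := h
  refine ⟨fun e => h1 e.symm, ?_⟩
  rcases h2 with ⟨h3, h4⟩ | h3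
  · exact Or.inl ⟨S.symm _ _ h3, h4.symm⟩
  · exact Or.inr h3.symm

private theorem J1_rel_symm {w w0 : V} (h : J1_rel S U o w w0) : J1_rel S U o w0 w :=
  ⟨h.2.1, h.1, h.2.2.imp (fun e => e.symm) J1_conf_symm⟩

private theorem J1_Rcard (hG : Cho S U L K o) {u : V} (hu : u ∈ U)
    (hc : (L u).card = l) : ((J1_R S U L o u).card : ℝ) ≤ 2 * K * l := by
  have h1 : (J1_R S U L o u).card ≤ ∑ a ∈ L u, (K + K) := by
    unfold J1_R
    refine card_biUnion_le.trans (sum_le_sum fun a ha => ?_)
    refine (card_union_le _ _).trans (add_le_add (hG.kP u hu a ha) ?_)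
    refine (card_le_card ?_).trans (hG.kR (S.r u a))
    intro w hw
    unfold KR at hw
    rw [mem_filter] at hw ⊢
    exact ⟨mem_univ _, hw.2.1, hw.2.2.2⟩
  rw [sum_const, hc, smul_eq_mul] at h1
  have h2 : ((J1_R S U L o u).card : ℝ) ≤ ((l * (K + K) : ℕ) : ℝ) := by exact_mod_cast h1
  refine h2.trans (le_of_eq ?_)
  push_cast
  ring

private theorem J1_relcard (hG : Cho S U L K o) (w0 : V) :
    ((univ.filter (fun w => J1_rel S U o w w0)).card : ℝ) ≤ 2 * K + 1 := by
  by_cases hw0 : w0 ∈ U
  · have h1 : univ.filter (fun w => J1_rel S U o w w0) ⊆ {w0} ∪ (KP S U o w0 (o w0) ∪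
        univ.filter (fun w => w ∈ U ∧ S.r w (o w) = S.r w0 (o w0))) := by
      intro w hw
      rw [mem_filter] at hw
      obtain ⟨-, hwU, -, h⟩ := hw
      rw [mem_union, mem_union, mem_singleton]
      rcases h with h | ⟨h1, ⟨h2, h3⟩ | h2⟩
      · exact Or.inl h
      · refine Or.inr (Or.inl ?_)
        unfold KP
        rw [mem_filter]
        exact ⟨mem_univ _, hwU, S.symm _ _ h2, h3⟩
      · refine Or.inr (Or.inr ?_)
        rw [mem_filter]
        exact ⟨mem_univ _, hwU, h2⟩
    have h2 : (univ.filter (fun w => J1_rel S U o w w0)).card ≤ 1 + (K + K) := by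
      refine (card_le_card h1).trans ((card_union_le _ _).trans (add_le_add (by simp) ?_))
      exact (card_union_le _ _).trans (add_le_add (hG.kP w0 hw0 _ (hG.mem w0 hw0)) (hG.kR _))
    have h3 : ((univ.filter (fun w => J1_rel S U o w w0)).card : ℝ) ≤ ((1 + (K + K) : ℕ) : ℝ) := by
      exact_mod_cast h2
    refine h3.trans (le_of_eq ?_)
    push_cast
    ring
  · have h1 : univ.filter (fun w => J1_rel S U o w w0) = ∅ := by
      rw [filter_eq_empty_iff]
      intro w _ h
      exact hw0 h.2.1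
    rw [h1, card_empty, Nat.cast_zero]
    positivity

/-- the status of a vertex depends on few labels -/
private theorem J1_ret {t : Lab V κ} {ω ω' : Lab V κ → Fin (m ^ (2 * K + 1))}
    (h : ∀ t', t' ≠ t → ω t' = ω' t') {w : V}
    (hne : ¬ (retv S U o m K ω w ↔ retv S U o m K ω' w)) :
    (∃ w0, t = Sum.inl (Sum.inl w0) ∧ J1_rel S U o w w0) ∨ (t = Sum.inl (Sum.inr w) ∧ w ∈ U) := by
  by_contra hcon
  push Not at hcon
  obtain ⟨hc1, hc2⟩ := hcon
  apply hne
  have hact : ∀ w', w' ∈ U → w ∈ U → (w = w' ∨ conf S o w w') →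
      (actv m K ω w' ↔ actv m K ω' w') := by
    intro w' hw' hwU hh
    have h1 : ω (Sum.inl (Sum.inl w')) = ω' (Sum.inl (Sum.inl w')) := by
      apply h
      intro e
      exact hc1 w' e.symm ⟨hwU, hw', hh⟩
    unfold actv
    rw [h1]
  have hgood : w ∈ U → (goodv S U o m K ω w ↔ goodv S U o m K ω' w) := by
    intro hwU
    have h1 : ω (Sum.inl (Sum.inr w)) = ω' (Sum.inl (Sum.inr w)) := by
      apply h
      intro e
      exact hc2 e.symm hwU
    unfold goodv
    rw [h1]
  unfold retv
  constructor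
  · rintro ⟨h1, h2, h3, h4⟩
    exact ⟨h1, (hact w h1 h1 (Or.inl rfl)).1 h2, (hgood h1).1 h3, fun w' hw' hc ha =>
      h4 w' hw' hc ((hact w' hw' h1 (Or.inr hc)).2 ha)⟩
  · rintro ⟨h1, h2, h3, h4⟩
    exact ⟨h1, (hact w h1 h1 (Or.inl rfl)).2 h2, (hgood h1).2 h3, fun w' hw' hc ha =>
      h4 w' hw' hc ((hact w' hw' h1 (Or.inr hc)).1 ha)⟩

private theorem J1_alive {t : Lab V κ} {ω ω' : Lab V κ → Fin (m ^ (2 * K + 1))}
    (h : ∀ t', t' ≠ t → ω t' = ω' t') {u : V} {a : κ}
    (hne : ¬ (alive S U L l m K x q o ω u a ↔ alive S U L l m K x q o ω' u a)) :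
    (∃ w, (w ∈ KP S U o u a ∨ w ∈ KR S U o u (S.r u a)) ∧
      ¬ (retv S U o m K ω w ↔ retv S U o m K ω' w)) ∨
      t = Sum.inr (Sum.inl (S.r u a)) ∨ t = Sum.inr (Sum.inr (u, a)) := by
  by_contra hcon
  push Not at hcon
  obtain ⟨hc1, hc2, hc3⟩ := hcon
  apply hne
  have hb : bkv S U L l m K x ω (S.r u a) ↔ bkv S U L l m K x ω' (S.r u a) := by
    have h1 : ω (Sum.inr (Sum.inl (S.r u a))) = ω' (Sum.inr (Sum.inl (S.r u a))) :=
      h _ (fun e => hc2 e.symm)
    unfold bkv
    rw [h1]
  have he : ekv S U L l m K q o ω u a ↔ ekv S U L l m K q o ω' u a := by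
    have h1 : ω (Sum.inr (Sum.inr (u, a))) = ω' (Sum.inr (Sum.inr (u, a))) :=
      h _ (fun e => hc3 e.symm)
    unfold ekv
    rw [h1]
  have hr1 : ∀ w ∈ KP S U o u a, (retv S U o m K ω w ↔ retv S U o m K ω' w) := fun w hw => by
    have := hc1 w (Or.inl hw)
    tauto
  have hr2 : ∀ w ∈ KR S U o u (S.r u a), (retv S U o m K ω w ↔ retv S U o m K ω' w) :=
    fun w hw => by
      have := hc1 w (Or.inr hw)
      tauto
  unfold alive nP nR
  rw [hb, he]
  constructor
  · rintro ⟨h1, h2, h3, h4⟩
    exact ⟨fun w hw hr => h1 w hw ((hr1 w hw).2 hr), fun w hw hr => h2 w hw ((hr2 w hw).2 hr),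
      h3, h4⟩
  · rintro ⟨h1, h2, h3, h4⟩
    exact ⟨fun w hw hr => h1 w hw ((hr1 w hw).1 hr), fun w hw hr => h2 w hw ((hr2 w hw).1 hr),
      h3, h4⟩

private theorem J1_card {α : Type} (s : Finset α) (P Q : α → Prop) (T : Finset α)
    (h : ∀ a ∈ s, ¬ (P a ↔ Q a) → a ∈ T) :
    |((s.filter P).card : ℝ) - (s.filter Q).card| ≤ T.card := by
  have key : ∀ P Q : α → Prop, (∀ a ∈ s, ¬ (P a ↔ Q a) → a ∈ T) →
      ((s.filter P).card : ℝ) ≤ (s.filter Q).card + T.card := by
    intro P Q h
    have h1 : s.filter P ⊆ s.filter Q ∪ T := by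
      intro a ha
      rw [mem_filter] at ha
      rw [mem_union, mem_filter]
      by_cases hQ : Q a
      · exact Or.inl ⟨ha.1, hQ⟩
      · exact Or.inr (h a ha.1 (fun e => hQ (e.1 ha.2)))
    exact_mod_cast (card_le_card h1).trans (card_union_le _ _)
  rw [abs_le]
  have h1 := key P Q h
  have h2 := key Q P (fun a ha hn => h a ha (fun e => hn e.symm))
  constructor <;> linarith

/-- the options which are affected by the status of `w` -/
private noncomputable def J1_B (S : CS V κ) (L : V → Finset κ) (o : V → κ) (u w : V) : Finset κ :=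
  (L u).filter (fun a => a = o w ∨ S.r u a = S.r w (o w))

private theorem J1_Bcard {u : V}
    (hi : ∀ a ∈ L u, ∀ a' ∈ L u, S.r u a = S.r u a' → a = a') (w : V) :
    (J1_B S L o u w).card ≤ 2 := by
  have h1 : J1_B S L o u w ⊆ {o w} ∪ (L u).filter (fun a => S.r u a = S.r w (o w)) := by
    intro a ha
    unfold J1_B at ha
    rw [mem_filter] at ha
    rw [mem_union, mem_singleton, mem_filter]
    rcases ha.2 with h | h
    · exact Or.inl h
    · exact Or.inr ⟨ha.1, h⟩
  refine (card_le_card h1).trans ((card_union_le _ _).trans ?_)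
  have h2 : ((L u).filter (fun a => S.r u a = S.r w (o w))).card ≤ 1 := by
    rw [card_le_one]
    intro a ha b hb
    rw [mem_filter] at ha hb
    exact hi a ha.1 b hb.1 (ha.2.trans hb.2.symm)
  rw [card_singleton]
  omega

private theorem J1_mono {n : ℕ} {u w : V} (h : near S n u w) : near S (n + 1) u w :=
  ⟨w, h, Or.inl rfl⟩

private theorem J1_mono3 {u w : V} (h : near S 5 u w) : near S 8 u w :=
  J1_mono (J1_mono (J1_mono h))

/-- the bounds of the differences -/
private noncomputable def J1_cc (S : CS V κ) (U : Finset V) (L : V → Finset κ) (o : V → κ) (u : V) :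
    Lab V κ → ℝ
  | Sum.inl (Sum.inl w0) => 2 * (((J1_R S U L o u).filter (fun w => J1_rel S U o w w0)).card : ℝ)
  | Sum.inl (Sum.inr w0) => if w0 ∈ J1_R S U L o u then 2 else 0
  | Sum.inr (Sum.inl v) => if ∃ a ∈ L u, S.r u a = v then 1 else 0
  | Sum.inr (Sum.inr p) => if p.1 = u ∧ p.2 ∈ L u then 1 else 0

end j1

theorem thm_J1 : St_J1 := by
  intro V κ _ _ S U L M D l m K x q Lam o hH hG u hu
  have hinj := hH.inj2 u hu
  have hRm : ∀ a ∈ L u, ∀ w, (w ∈ KP S U o u a ∨ w ∈ KR S U o u (S.r u a)) →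
      w ∈ J1_R S U L o u ∧ a ∈ J1_B S L o u w := by
    intro a ha w hw
    refine ⟨?_, ?_⟩
    · unfold J1_R
      rw [mem_biUnion]
      exact ⟨a, ha, mem_union.2 hw⟩
    · unfold J1_B
      rw [mem_filter]
      refine ⟨ha, ?_⟩
      rcases hw with h | h
      · unfold KP at h
        rw [mem_filter] at h
        exact Or.inl h.2.2.2.symm
      · unfold KR at h
        rw [mem_filter] at h
        exact Or.inr h.2.2.2.symm
  refine ⟨J1_cc S U L o u, ?_, ?_, ?_, ?_⟩
  · intro t
    rcases t with (w0 | w0) | (v | p)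
    · show (0 : ℝ) ≤ 2 * _
      positivity
    · show (0 : ℝ) ≤ if _ then 2 else 0
      split_ifs <;> norm_num
    · show (0 : ℝ) ≤ if _ then 1 else 0
      split_ifs <;> norm_num
    · show (0 : ℝ) ≤ if _ then 1 else 0
      split_ifs <;> norm_num
  · intro t ω ω' h
    unfold G1
    rcases t with (w0 | w0) | (v | p)
    · -- activity
      show _ ≤ 2 * (((J1_R S U L o u).filter (fun w => J1_rel S U o w w0)).card : ℝ)
      refine (J1_card (L u ∩ M u) _ _ (((J1_R S U L o u).filter (fun w => J1_rel S U o w w0)).biUnion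
        (fun w => J1_B S L o u w)) ?_).trans ?_
      · intro a ha' hne
        have ha : a ∈ L u := (mem_inter.1 ha').1
        rw [mem_biUnion]
        rcases J1_alive h hne with ⟨w, hw, hr⟩ | h1 | h1
        · rcases J1_ret h hr with ⟨w1, h2, h3⟩ | h2
          · have h4 : w0 = w1 := Sum.inl.inj (Sum.inl.inj h2)
            subst h4
            obtain ⟨h5, h6⟩ := hRm a ha w hw
            exact ⟨w, mem_filter.2 ⟨h5, h3⟩, h6⟩
          · exact absurd h2.1 (by simp)
        · exact absurd h1 (by simp)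
        · exact absurd h1 (by simp)
      · have h1 : (((J1_R S U L o u).filter (fun w => J1_rel S U o w w0)).biUnion
            (fun w => J1_B S L o u w)).card ≤
            ((J1_R S U L o u).filter (fun w => J1_rel S U o w w0)).card * 2 :=
          card_biUnion_le_card_mul _ _ _ (fun w _ => J1_Bcard hinj w)
        have h2 : ((((J1_R S U L o u).filter (fun w => J1_rel S U o w w0)).biUnion
            (fun w => J1_B S L o u w)).card : ℝ) ≤
            ((((J1_R S U L o u).filter (fun w => J1_rel S U o w w0)).card * 2 : ℕ) : ℝ) := by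
          exact_mod_cast h1
        refine h2.trans (le_of_eq ?_)
        push_cast
        ring
    · -- coin
      show _ ≤ if w0 ∈ J1_R S U L o u then (2 : ℝ) else 0
      split_ifs with hw0
      · refine (J1_card (L u ∩ M u) _ _ (J1_B S L o u w0) ?_).trans (by exact_mod_cast J1_Bcard hinj w0)
        intro a ha' hne
        have ha : a ∈ L u := (mem_inter.1 ha').1
        rcases J1_alive h hne with ⟨w, hw, hr⟩ | h1 | h1
        · rcases J1_ret h hr with ⟨w1, h2, h3⟩ | h2
          · exact absurd h2 (by simp)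
          · have h4 : w0 = w := Sum.inr.inj (Sum.inl.inj h2.1)
            subst h4
            exact (hRm a ha w0 hw).2
        · exact absurd h1 (by simp)
        · exact absurd h1 (by simp)
      · refine (J1_card (L u ∩ M u) _ _ ∅ ?_).trans (by simp)
        intro a ha' hne
        have ha : a ∈ L u := (mem_inter.1 ha').1
        rcases J1_alive h hne with ⟨w, hw, hr⟩ | h1 | h1
        · rcases J1_ret h hr with ⟨w1, h2, h3⟩ | h2
          · exact absurd h2 (by simp)
          · have h4 : w0 = w := Sum.inr.inj (Sum.inl.inj h2.1)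
            subst h4
            exact absurd (hRm a ha w0 hw).1 hw0
        · exact absurd h1 (by simp)
        · exact absurd h1 (by simp)
    · -- blocking
      show _ ≤ if ∃ a ∈ L u, S.r u a = v then (1 : ℝ) else 0
      have hch : ∀ a ∈ L u, ¬ (alive S U L l m K x q o ω u a ↔ alive S U L l m K x q o ω' u a) →
          S.r u a = v := by
        intro a ha hne
        rcases J1_alive h hne with ⟨w, hw, hr⟩ | h1 | h1
        · rcases J1_ret h hr with ⟨w1, h2, h3⟩ | h2
          · exact absurd h2 (by simp)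
          · exact absurd h2.1 (by simp)
        · exact (Sum.inl.inj (Sum.inr.inj h1)).symm
        · exact absurd h1 (by simp)
      split_ifs with hv
      · refine (J1_card (L u ∩ M u) _ _ ((L u).filter (fun a => S.r u a = v)) ?_).trans ?_
        · intro a ha' hne
          have ha : a ∈ L u := (mem_inter.1 ha').1
          exact mem_filter.2 ⟨ha, hch a ha hne⟩
        · have h1 : ((L u).filter (fun a => S.r u a = v)).card ≤ 1 := by
            rw [card_le_one]
            intro a ha b hb
            rw [mem_filter] at ha hb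
            exact hinj a ha.1 b hb.1 (ha.2.trans hb.2.symm)
          exact_mod_cast h1
      · refine (J1_card (L u ∩ M u) _ _ ∅ ?_).trans (by simp)
        intro a ha' hne
        have ha : a ∈ L u := (mem_inter.1 ha').1
        exact absurd ⟨a, ha, hch a ha hne⟩ hv
    · -- killing
      show _ ≤ if p.1 = u ∧ p.2 ∈ L u then (1 : ℝ) else 0
      have hch : ∀ a ∈ L u, ¬ (alive S U L l m K x q o ω u a ↔ alive S U L l m K x q o ω' u a) →
          p = (u, a) := by
        intro a ha hne
        rcases J1_alive h hne with ⟨w, hw, hr⟩ | h1 | h1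
        · rcases J1_ret h hr with ⟨w1, h2, h3⟩ | h2
          · exact absurd h2 (by simp)
          · exact absurd h2.1 (by simp)
        · exact absurd h1 (by simp)
        · exact Sum.inr.inj (Sum.inr.inj h1)
      split_ifs with hv
      · refine (J1_card (L u ∩ M u) _ _ {p.2} ?_).trans (by simp)
        intro a ha' hne
        have ha : a ∈ L u := (mem_inter.1 ha').1
        rw [mem_singleton, hch a ha hne]
      · refine (J1_card (L u ∩ M u) _ _ ∅ ?_).trans (by simp)
        intro a ha' hne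
        have ha : a ∈ L u := (mem_inter.1 ha').1
        have h1 := hch a ha hne
        rw [h1] at hv
        exact absurd ⟨rfl, ha⟩ hv
  · -- the sum of the squares
    have hK := hH.Kpos
    have hl := hH.lpos
    have hR := J1_Rcard hG hu (hH.card u hu)
    have hR0 : (0 : ℝ) ≤ (J1_R S U L o u).card := Nat.cast_nonneg _
    rw [Fintype.sum_sum_type, Fintype.sum_sum_type, Fintype.sum_sum_type]
    have s1 : ∑ w0 : V, J1_cc S U L o u (Sum.inl (Sum.inl w0)) ^ 2 ≤
        8 * K * l * (2 * K + 1) ^ 2 := by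
      show ∑ w0 : V, (2 * (((J1_R S U L o u).filter (fun w => J1_rel S U o w w0)).card : ℝ)) ^ 2 ≤ _
      have h1 : ∀ w0 : V, (2 * (((J1_R S U L o u).filter
          (fun w => J1_rel S U o w w0)).card : ℝ)) ^ 2 ≤ 4 * (2 * K + 1) *
            (((J1_R S U L o u).filter (fun w => J1_rel S U o w w0)).card : ℝ) := by
        intro w0
        have h2 : (((J1_R S U L o u).filter (fun w => J1_rel S U o w w0)).card : ℝ) ≤
            2 * K + 1 := by
          refine le_trans ?_ (J1_relcard hG w0)
          exact_mod_cast card_le_card (filter_subset_filter _ (subset_univ _))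
        have h3 : (0 : ℝ) ≤ ((J1_R S U L o u).filter (fun w => J1_rel S U o w w0)).card :=
          Nat.cast_nonneg _
        nlinarith
      refine (sum_le_sum fun w0 _ => h1 w0).trans ?_
      rw [← mul_sum]
      have h4 : ∑ w0 : V, (((J1_R S U L o u).filter (fun w => J1_rel S U o w w0)).card : ℝ) ≤
          (J1_R S U L o u).card * (2 * K + 1) := by
        have h5 : ∀ w0 : V, (((J1_R S U L o u).filter (fun w => J1_rel S U o w w0)).card : ℝ) =
            ∑ w ∈ J1_R S U L o u, if J1_rel S U o w w0 then (1 : ℝ) else 0 := by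
          intro w0
          rw [card_filter]
          push_cast
          rfl
        rw [sum_congr rfl fun w0 _ => h5 w0, sum_comm]
        have h6 : ∀ w ∈ J1_R S U L o u, ∑ w0 : V, (if J1_rel S U o w w0 then (1 : ℝ) else 0) ≤
            2 * K + 1 := by
          intro w _
          refine le_trans (le_of_eq ?_) (J1_relcard hG w)
          rw [card_filter]
          push_cast
          refine sum_congr rfl fun w0 _ => ?_
          by_cases h7 : J1_rel S U o w w0
          · rw [if_pos h7, if_pos (J1_rel_symm h7)]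
          · rw [if_neg h7, if_neg (fun h8 => h7 (J1_rel_symm h8))]
        refine (sum_le_sum h6).trans (le_of_eq ?_)
        rw [sum_const, nsmul_eq_mul]
      have h8 : (J1_R S U L o u).card * (2 * (K : ℝ) + 1) ≤ 2 * K * l * (2 * K + 1) :=
        mul_le_mul_of_nonneg_right hR (by positivity)
      calc 4 * (2 * (K : ℝ) + 1) * ∑ w0 : V,
            (((J1_R S U L o u).filter (fun w => J1_rel S U o w w0)).card : ℝ)
          ≤ 4 * (2 * (K : ℝ) + 1) * (2 * K * l * (2 * K + 1)) :=
            mul_le_mul_of_nonneg_left (h4.trans h8) (by positivity)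
        _ = 8 * K * l * (2 * K + 1) ^ 2 := by ring
    have s2 : ∑ w0 : V, J1_cc S U L o u (Sum.inl (Sum.inr w0)) ^ 2 ≤ 8 * K * l := by
      show ∑ w0 : V, (if w0 ∈ J1_R S U L o u then (2 : ℝ) else 0) ^ 2 ≤ _
      have h1 : ∀ w0 : V, (if w0 ∈ J1_R S U L o u then (2 : ℝ) else 0) ^ 2 =
          if w0 ∈ J1_R S U L o u then (4 : ℝ) else 0 := by
        intro w0
        split_ifs <;> norm_num
      rw [sum_congr rfl fun w0 _ => h1 w0, ← sum_filter, sum_const, nsmul_eq_mul]
      have h2 : univ.filter (fun w0 => w0 ∈ J1_R S U L o u) = J1_R S U L o u := by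
        ext w
        simp
      rw [h2]
      nlinarith
    have s3 : ∑ v : V, J1_cc S U L o u (Sum.inr (Sum.inl v)) ^ 2 ≤ l := by
      show ∑ v : V, (if ∃ a ∈ L u, S.r u a = v then (1 : ℝ) else 0) ^ 2 ≤ _
      have h1 : ∀ v : V, (if ∃ a ∈ L u, S.r u a = v then (1 : ℝ) else 0) ^ 2 =
          if ∃ a ∈ L u, S.r u a = v then (1 : ℝ) else 0 := by
        intro v
        split_ifs <;> norm_num
      rw [sum_congr rfl fun v _ => h1 v, ← sum_filter, sum_const, nsmul_eq_mul, mul_one]
      have h2 : univ.filter (fun v => ∃ a ∈ L u, S.r u a = v) ⊆ (L u).image (fun a => S.r u a) := by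
        intro v hv
        rw [mem_filter] at hv
        rw [mem_image]
        exact hv.2
      have h3 := (card_le_card h2).trans card_image_le
      rw [hH.card u hu] at h3
      exact_mod_cast h3
    have s4 : ∑ p : V × κ, J1_cc S U L o u (Sum.inr (Sum.inr p)) ^ 2 ≤ l := by
      show ∑ p : V × κ, (if p.1 = u ∧ p.2 ∈ L u then (1 : ℝ) else 0) ^ 2 ≤ _
      have h1 : ∀ p : V × κ, (if p.1 = u ∧ p.2 ∈ L u then (1 : ℝ) else 0) ^ 2 =
          if p.1 = u ∧ p.2 ∈ L u then (1 : ℝ) else 0 := by
        intro p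
        split_ifs <;> norm_num
      rw [sum_congr rfl fun p _ => h1 p, ← sum_filter, sum_const, nsmul_eq_mul, mul_one]
      have h2 : univ.filter (fun p : V × κ => p.1 = u ∧ p.2 ∈ L u) ⊆
          (L u).image (fun a => (u, a)) := by
        rintro ⟨p1, p2⟩ hv
        rw [mem_filter] at hv
        rw [mem_image]
        obtain ⟨-, h3, h4⟩ := hv
        exact ⟨p2, h4, Prod.ext h3.symm rfl⟩
      have h3 := (card_le_card h2).trans card_image_le
      rw [hH.card u hu] at h3
      exact_mod_cast h3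
    have hfin : 8 * (K : ℝ) * l * (2 * K + 1) ^ 2 + 8 * K * l + (l + l) ≤
        450 * (K : ℝ) ^ 4 * l := by
      have h1 : 8 * (K : ℝ) * (2 * K + 1) ^ 2 + 8 * K + 2 ≤ 450 * (K : ℝ) ^ 4 := by
        have h2 : (2 * (K : ℝ) + 1) ^ 2 ≤ 9 * (K : ℝ) ^ 2 := by nlinarith
        have h3 : (K : ℝ) ^ 3 ≤ (K : ℝ) ^ 4 := by
          have : (0 : ℝ) ≤ (K : ℝ) ^ 3 := by positivity
          nlinarith
        have h4 : (K : ℝ) ≤ (K : ℝ) ^ 4 := by
          have h5 : (1 : ℝ) ≤ (K : ℝ) ^ 3 := one_le_pow₀ (by linarith)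
          nlinarith
        have h6 : (1 : ℝ) ≤ (K : ℝ) ^ 4 := one_le_pow₀ (by linarith)
        have h7 : 8 * (K : ℝ) * (2 * K + 1) ^ 2 ≤ 8 * K * (9 * (K : ℝ) ^ 2) :=
          mul_le_mul_of_nonneg_left h2 (by positivity)
        nlinarith
      calc 8 * (K : ℝ) * l * (2 * K + 1) ^ 2 + 8 * K * l + (l + l) =
          (8 * (K : ℝ) * (2 * K + 1) ^ 2 + 8 * K + 2) * l := by ring
        _ ≤ 450 * (K : ℝ) ^ 4 * l := mul_le_mul_of_nonneg_right h1 hl.le
    exact (add_le_add (add_le_add s1 s2) (add_le_add s3 s4)).trans hfin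
  · -- locality
    have hRn : ∀ w ∈ J1_R S U L o u, near S 2 u w := by
      intro w hw
      unfold J1_R at hw
      rw [mem_biUnion] at hw
      obtain ⟨a, ha, hw⟩ := hw
      rw [mem_union] at hw
      rcases hw with h | h
      · unfold KP at h
        rw [mem_filter] at h
        exact J1_mono ⟨u, rfl, Or.inr (Or.inl h.2.2.1)⟩
      · unfold KR at h
        rw [mem_filter] at h
        exact ⟨S.r u a, ⟨u, rfl, Or.inr (Or.inr (Or.inl ⟨a, rfl⟩))⟩,
          Or.inr (Or.inr (Or.inr ⟨o w, h.2.2.2⟩))⟩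
    intro t ht
    rcases t with (w0 | w0) | (v | p)
    · have ht' : 2 * (((J1_R S U L o u).filter (fun w => J1_rel S U o w w0)).card : ℝ) ≠ 0 := ht
      have h1 : ((J1_R S U L o u).filter (fun w => J1_rel S U o w w0)).Nonempty := by
        rw [← card_pos]
        by_contra h2
        apply ht'
        have h3 : ((J1_R S U L o u).filter (fun w => J1_rel S U o w w0)).card = 0 := by omega
        rw [h3]
        norm_num
      obtain ⟨w, hw⟩ := h1
      rw [mem_filter] at hw
      have h2 := hRn w hw.1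
      have h3 : near S 4 u w0 := by
        rcases hw.2.2.2 with h | ⟨h4, ⟨h5, h6⟩ | h5⟩
        · rw [← h]
          exact J1_mono (J1_mono h2)
        · exact J1_mono ⟨w, h2, Or.inr (Or.inl h5)⟩
        · exact ⟨S.r w (o w), ⟨w, h2, Or.inr (Or.inr (Or.inl ⟨o w, rfl⟩))⟩,
            Or.inr (Or.inr (Or.inr ⟨o w0, h5.symm⟩))⟩
      exact J1_mono3 (J1_mono h3)
    · have ht' : (if w0 ∈ J1_R S U L o u then (2 : ℝ) else 0) ≠ 0 := ht
      by_cases hw0 : w0 ∈ J1_R S U L o u
      · exact J1_mono3 (J1_mono (J1_mono (J1_mono (hRn w0 hw0))))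
      · rw [if_neg hw0] at ht'
        exact absurd rfl ht'
    · have ht' : (if ∃ a ∈ L u, S.r u a = v then (1 : ℝ) else 0) ≠ 0 := ht
      by_cases hv : ∃ a ∈ L u, S.r u a = v
      · obtain ⟨a, -, h1⟩ := hv
        exact J1_mono3 (J1_mono (J1_mono (J1_mono (J1_mono
          ⟨u, rfl, Or.inr (Or.inr (Or.inl ⟨a, h1⟩))⟩))))
      · rw [if_neg hv] at ht'
        exact absurd rfl ht'
    · have ht' : (if p.1 = u ∧ p.2 ∈ L u then (1 : ℝ) else 0) ≠ 0 := ht
      by_cases hv : p.1 = u ∧ p.2 ∈ L u
      · have h1 : near S 0 u (pos (Sum.inr (Sum.inr p) : Lab V κ)) := hv.1.symm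
        exact J1_mono3 (J1_mono (J1_mono (J1_mono (J1_mono (J1_mono h1)))))
      · rw [if_neg hv] at ht'
        exact absurd rfl ht'

end Pool.TCU
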